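import Pool.Agent.H483R3.Cyc.Asm
import Pool.Agent.H483R3.Cyc.TaskE
import Pool.Agent.H483R3.Cyc.SgEx
import Pool.Agent.H483R3.Cyc.TaskSgStep
import Pool.Agent.H483R3.Cyc.TaskESmall
import Pool.Agent.H666R3.Cyc.Spec1
import Pool.Agent.H483R3.Cyc.TaskSpec2
import Pool.Agent.H483R3.Cyc.Pat1
import Pool.Agent.H483R3.Cyc.Pat2
import Pool.Agent.H483R3.Cyc.TaskG
import Pool.Agent.H483R3.Cyc.T_Mom
import Pool.Agent.H483R3.Cyc.Dconv
import Pool.Agent.H483R3.Cyc.TaskRzero
import Pool.Agent.H474R3.Cyc.M1
import Pool.Agent.H483R3.Cyc.TaskM2
import Pool.Agent.H483R3.Cyc.TaskPZ
import Pool.Agent.H483R3.Cyc.Link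

set_option autoImplicit false

/-!
# No coexistence on cycles in the multi-type urn process

For every `k ≥ 3` and every number `s` of colours the cycle of length `k` belongs to the class
`G_s`: from every initial configuration with at least one ball, almost surely exactly one colour
survives. This is the conjecture on cycles stated in the problem file.

Proof (helper483; formalisation with helpers 69, 94, 109, 144, 192, 229, 421, 449, 474, 504, 563,
638, 666, 745, 862, 929). Also an empty urn keeps a colour entry. The number of edges of the cycle with
two different entries never increases. Once it is constant, the entries can be signed so that the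
signed numbers of balls follow a linear reinforcement process for the adjacency matrix of the cycle,
twisted by a sign on one edge if the number of changes is odd. For this process the projection to
the top eigenspace, of dimension one or two, dominates almost surely: second and fourth moments
with a random normaliser, Paley-Zygmund and Levy's zero-one law. The sign patterns of the top
eigenvectors have no change (untwisted) or exactly one change (twisted), which a cyclic colouring
cannot have.
-/

namespace Pool.Agent.Results.MP_747d65_pr.Cycles

open H483C

theorem result : ∀ s k : ℕ, 3 ≤ k → InClass s (SimpleGraph.cycleGraph k) :=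
  Asm.final
    (Asm.taskL G.t TMom.t Dconv.t taskRzero M1.t M2.t TaskPZ.t)
    TaskE.t TaskESmall.t Pool.Agent.H666R3.CycSpec1.t TaskSpec2.t Pat1.t Pat2.t
    (Link.t SgEx.t SgStep.t)

end Pool.Agent.Results.MP_747d65_pr.Cycles
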